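import Pool.Agent.Lib.MP_88d9d7_lc.Defs

/-!
Borel perfect matchings and sinkless orientations.
-/

namespace Pool.Agent.Lib.MP_88d9d7_lc

/-- There is a Borel perfect matching: a symmetric Borel set of edges meeting every vertex once. -/
def BorelMatching (G : Set (X × X)) : Prop :=
  ∃ M : Set (X × X), MeasurableSet M ∧ M ⊆ G ∧ (∀ x y, (x, y) ∈ M → (y, x) ∈ M) ∧
    ∀ x, ∃! y, (x, y) ∈ M

/-- There is a Borel sinkless orientation: every edge gets exactly one direction and every vertex has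
an outgoing edge. -/
def BorelSinkless (G : Set (X × X)) : Prop :=
  ∃ O : Set (X × X), MeasurableSet O ∧ O ⊆ G ∧ (∀ x y, (x, y) ∈ G → ((x, y) ∈ O ↔ (y, x) ∉ O)) ∧
    ∀ x, ∃ y, (x, y) ∈ O

/-- Codes of the `Δ`-regular acyclic hyperfinite Borel graphs with the property `P`. -/
def classP (Δ : ℕ) (P : Set (X × X) → Prop) : Set (ℕ → ℕ) :=
  {c | ∃ G, Codes c G ∧ IsGraph G ∧ Regular Δ G ∧ Acyclic G ∧ Hyperfinite G ∧ P G}

/-- `A` is a projection of a coanalytic set, and every such subset of the Cantor space is the preimage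
of `A` under a Borel map into `C`. -/
def CompleteIn (C A : Set (ℕ → ℕ)) : Prop :=
  Sigma12 A ∧ ∀ B : Set (ℕ → Bool), Sigma12 B →
    ∃ f : (ℕ → Bool) → (ℕ → ℕ), Measurable f ∧ ∀ x, f x ∈ C ∧ (x ∈ B ↔ f x ∈ A)

end Pool.Agent.Lib.MP_88d9d7_lc
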