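import Pool.Agent.Lib.MP_88d9d7_lc.Upper
import Pool.Agent.Lib.MP_88d9d7_lc.Ins.Defs

/-!
The sets `classP Δ P` are projections of coanalytic sets.
-/

set_option synthInstance.maxSize 2048

namespace Pool.Agent.Lib.MP_88d9d7_lc

open Set

variable {Δ : ℕ}

/-- The ways in which a witness can fail. -/
def Bad0 (V : Bool → Ix Δ → X → X → Prop) (x : ℕ → X) (z : List (Fin Δ) → X) : Prop :=
  (V true .g (x 0) (x 1) ∧ V false .g (x 1) (x 0)) ∨ V true .g (x 0) (x 0) ∨
  (V true .g (x 0) (x 1) ∧ ∀ j, IsNot V j (x 0) (x 1)) ∨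
  (∃ j, Is V j (x 0) (x 1) ∧ V false .g (x 0) (x 1)) ∨
  (∃ j k, j ≠ k ∧ Is V j (x 0) (x 1) ∧ Is V k (x 0) (x 1)) ∨
  (∃ n, 3 ≤ n ∧ (∀ i j, i < n → j < n → x i = x j → i = j) ∧ x n = x 0 ∧
    ∀ i, i < n → V true .g (x i) (x (i + 1))) ∨
  (∃ n, V false (.e n) (x 0) (x 0)) ∨
  (∃ n, V true (.e n) (x 0) (x 1) ∧ V false (.e n) (x 1) (x 0)) ∨
  (∃ n, V true (.e n) (x 0) (x 1) ∧ V true (.e n) (x 1) (x 2) ∧ V false (.e n) (x 0) (x 2)) ∨
  (∃ n, V true (.e n) (x 0) (x 1) ∧ V false (.e (n + 1)) (x 0) (x 1)) ∨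
  (∃ n, (∀ i j, x i = x j → i = j) ∧ ∀ i, V true (.e n) (x 0) (x i)) ∨
  (V true .g (x 0) (x 1) ∧ ∀ n, V false (.e n) (x 0) (x 1)) ∨
  (∃ n, V true (.e n) (z []) (x 0) ∧ (∀ j u, Is V j (z u) (z (j :: u))) ∧ ∀ u, z u ≠ x 0)

theorem an_bad0 : An fun c : Ix Δ → ℕ → ℕ =>
    ∃ x z, Bad0 (fun t i a b => Val t (c i) (a, b)) x z := by
  refine An.ex (An.ex ?_)
  have v : ∀ t i (a b : ((Ix Δ → ℕ → ℕ) × (ℕ → X)) × (List (Fin Δ) → X) → X), Measurable a →
      Measurable b → An fun p => Val t (p.1.1 i) (a p, b p) := fun t i a b ha hb =>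
    an_val t (by fun_prop) ha hb
  have x : ∀ i, Measurable fun p : ((Ix Δ → ℕ → ℕ) × (ℕ → X)) × (List (Fin Δ) → X) => p.1.2 i :=
    fun i => by fun_prop
  have z : ∀ u, Measurable fun p : ((Ix Δ → ℕ → ℕ) × (ℕ → X)) × (List (Fin Δ) → X) => p.2 u :=
    fun u => by fun_prop
  have w : ∀ t i k l, An fun p : ((Ix Δ → ℕ → ℕ) × (ℕ → X)) × (List (Fin Δ) → X) =>
      Val t (p.1.1 i) (p.1.2 k, p.1.2 l) := fun t i k l => v t i _ _ (x k) (x l)
  have e : ∀ {a b : ((Ix Δ → ℕ → ℕ) × (ℕ → X)) × (List (Fin Δ) → X) → X}, Measurable a →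
      Measurable b → Measurable fun p => a p = b p := fun ha hb =>
    measurableSet_setOfPred.mp (measurableSet_eq_fun ha hb)
  have bit : ∀ {a : ((Ix Δ → ℕ → ℕ) × (ℕ → X)) × (List (Fin Δ) → X) → X}, Measurable a →
      ∀ m t, An fun p => a p m = t := fun ha m t => An.of_meas
    (measurableSet_setOfPred.mp (measurableSet_eq_fun (by fun_prop) measurable_const))
  have is : ∀ j {a b : ((Ix Δ → ℕ → ℕ) × (ℕ → X)) × (List (Fin Δ) → X) → X}, Measurable a →
      Measurable b → An fun p => Is (fun t i a b => Val t (p.1.1 i) (a, b)) j (a p) (b p) :=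
    fun j a b ha hb => .allc fun m => .exc fun t => (bit hb m t).and (v t _ _ _ ha ha)
  have c : ∀ q : Prop, An fun _ : ((Ix Δ → ℕ → ℕ) × (ℕ → X)) × (List (Fin Δ) → X) => q :=
    fun q => An.of_meas measurable_const
  exact .or (.and (w ..) (w ..)) <| .or (w ..) <|
    .or (.and (w ..) (.allc fun j => .exc fun m => .exc fun t => (bit (x 1) m _).and (w ..))) <|
    .or (.exc fun j => .and (is j (x 0) (x 1)) (w ..)) <|
    .or (.exc fun j => .exc fun k => .and (c _) (.and (is j (x 0) (x 1)) (is k (x 0) (x 1)))) <|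
    .or (.exc fun n => .and (c _) <| .and (.of_meas <| .forall fun i => .forall fun j =>
      .imp measurable_const <| .imp measurable_const <| .imp (e (x i) (x j)) measurable_const) <|
      .and (.of_meas (e (x n) (x 0))) (.allc fun i => .imp measurable_const (w ..))) <|
    .or (.exc fun n => w ..) <| .or (.exc fun n => .and (w ..) (w ..)) <|
    .or (.exc fun n => .and (w ..) (.and (w ..) (w ..))) <| .or (.exc fun n => .and (w ..) (w ..)) <|
    .or (.exc fun n => .and (.of_meas <| .forall fun i => .forall fun j =>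
      .imp (e (x i) (x j)) measurable_const) (.allc fun i => w ..)) <|
    .or (.and (w ..) (.allc fun n => w ..)) <|
    (.exc fun n => .and (v _ _ _ _ (z _) (x 0)) <| .and
      (.allc fun j => .allc fun u => is j (z _) (z _))
      (.of_meas (.forall fun u => (e (z u) (x 0)).not)))

theorem of_not_bad0 {S : Ix Δ → Set (X × X)} (hS : ∀ i, MeasurableSet (S i))
    (h : ¬ ∃ x z, Bad0 (mem S) x z) : IsGraph (S .g) ∧ Regular Δ (S .g) ∧ Acyclic (S .g) ∧
      Hyperfinite (S .g) := by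
  classical
  let f : X → Fin Δ → X := fun x j m => decide ((x, x) ∈ S (.b j m))
  have hf := is_mem (S := S) (f := f) fun x j m => by simp [f]
  simp only [Bad0, (hf _ _ _).1, (hf _ _ _).2, mem, if_true, Bool.false_eq_true, if_false, not_exists,
    not_or, not_and, not_not, not_forall] at h
  have t := fun a b c => h (tri a b c) default
  simp only [tri] at t
  have hE : ∀ n, Equivalence fun x y => (x, y) ∈ S (.e n) := fun n =>
    ⟨fun a => (t a a a).2.2.2.2.2.2.1 n, fun {a b} => (t a b a).2.2.2.2.2.2.2.1 n,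
      fun {a b c} => (t a b c).2.2.2.2.2.2.2.2.1 n⟩
  have hM : Monotone fun n => S (.e n) := monotone_nat_of_le_succ fun n q =>
    (t q.1 q.2 q.1).2.2.2.2.2.2.2.2.2.1 n
  have hG : ∀ x j, (x, f x j) ∈ S .g := fun x j => (t x _ x).2.2.2.1 j rfl
  refine ⟨⟨fun a b => (t a b a).1, fun a => (t a a a).2.1⟩, fun a => ?_, ?_,
    ⟨fun n => S (.e n), fun n => ⟨hS _, hE n, hM (Nat.le_succ n), fun a => ?_⟩, fun a b => ⟨?_, ?_⟩⟩⟩
  · have h1 : {y | (a, y) ∈ S .g} = range (f a) :=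
      ext fun b => ⟨(t a b a).2.2.1, by rintro ⟨j, rfl⟩; exact hG a j⟩
    have h2 : Function.Injective (f a) := fun j k e => by
      by_contra hne
      exact (t a (f a k) a).2.2.2.2.1 j k hne e rfl
    rw [h1, ← image_univ, h2.encard_image, encard_univ]
    simp
  · rintro ⟨n, x, h1, h2, h3, h4⟩
    obtain ⟨i, h5, h6⟩ := (h x default).2.2.2.2.2.1 n h1 (fun i j hi hj e => h2 hi hj e) h3
    exact h6 (h4 i h5)
  · by_contra hinf
    let y := Set.Infinite.natEmbedding _ hinf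
    obtain ⟨i, hi⟩ := (h (fun i => y i) default).2.2.2.2.2.2.2.2.2.2.1 n
      fun i j e => y.injective (Subtype.ext e)
    exact hi ((hE n).trans ((hE n).symm (y 0).2) (y i).2)
  · intro hab
    induction hab with
    | refl => exact ⟨0, (hE 0).refl a⟩
    | @tail b c _ hbc ih =>
      obtain ⟨n, hn⟩ := ih
      obtain ⟨m, hm⟩ := (t b c b).2.2.2.2.2.2.2.2.2.2.2.1 hbc
      exact ⟨max n m, (hE _).trans (hM (le_max_left n m) hn) (hM (le_max_right n m) hm)⟩
  · rintro ⟨n, hn⟩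
    let z : List (Fin Δ) → X := fun u => List.rec a (fun j _ r => f r j) u
    obtain ⟨u, hu⟩ := (h (fun _ => b) z).2.2.2.2.2.2.2.2.2.2.2.2 n hn fun _ _ => rfl
    rw [← hu]
    clear hu
    induction u with
    | nil => exact .refl
    | cons j u ih => exact ih.tail (hG _ j)

theorem exists_not_bad0 {G : Set (X × X)} (hG : MeasurableSet G) (h1 : IsGraph G) (h2 : Regular Δ G)
    (h3 : Acyclic G) (h4 : Hyperfinite G) :
    ∃ S : Ix Δ → Set (X × X), (∀ i, MeasurableSet (S i)) ∧ S .g = G ∧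
      ¬ ∃ x z, Bad0 (mem S) x z := by
  obtain ⟨f, hf1, hf2, hf3⟩ := exists_nbrs hG h2
  obtain ⟨E, hE, hE'⟩ := h4
  let S : Ix Δ → Set (X × X) := fun i => match i with
    | .g => G
    | .e n => E n
    | .b j m => {q | f q.1 j m = true}
    | .k _ => ∅
  refine ⟨S, ?_, rfl, ?_⟩
  · rintro (_ | n | ⟨j, m⟩ | j)
    · exact hG
    · exact (hE n).1
    · exact measurableSet_eq_fun (by fun_prop) measurable_const
    · exact MeasurableSet.empty
  have hf := is_mem (S := S) (f := f) fun x j m => Iff.rfl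
  rintro ⟨x, z, h⟩
  simp only [Bad0, (hf _ _ _).1, (hf _ _ _).2, mem, if_true, Bool.false_eq_true, if_false, S] at h
  rcases h with h | h | h | ⟨j, h⟩ | ⟨j, k, h⟩ | ⟨n, h⟩ | ⟨n, h⟩ | ⟨n, h⟩ | ⟨n, h⟩ | ⟨n, h⟩ |
    ⟨n, h⟩ | h | ⟨n, h⟩
  · exact h.2 (h1.1 _ _ h.1)
  · exact h1.2 _ h
  · obtain ⟨j, hj⟩ := (hf3 _ _).mp h.1
    exact h.2 j hj
  · exact h.2 ((hf3 _ _).mpr ⟨j, h.1⟩)
  · exact h.1 (hf2 _ (h.2.1.trans h.2.2.symm))
  · exact h3 ⟨n, x, h.1, fun i hi j hj => h.2.1 i j hi hj, h.2.2⟩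
  · exact h ((hE n).2.1.refl _)
  · exact h.2 ((hE n).2.1.symm h.1)
  · exact h.2.2 ((hE n).2.1.trans h.1 h.2.1)
  · exact h.2 ((hE n).2.2.1 h.1)
  · exact infinite_of_injective_forall_mem h.1 h.2 ((hE n).2.2.2 _)
  · obtain ⟨n, hn⟩ := (hE' _ _).mp (.single h.1)
    exact h.2 n hn
  · have : ∀ y, Relation.ReflTransGen (fun a b => (a, b) ∈ G) (z []) y → ∃ u, z u = y := by
      intro y hy
      induction hy with
      | refl => exact ⟨[], rfl⟩
      | tail _ hbc ih =>
        obtain ⟨u, rfl⟩ := ih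
        obtain ⟨j, rfl⟩ := (hf3 _ _).mp hbc
        exact ⟨j :: u, (h.2.1 j u).symm⟩
    obtain ⟨u, hu⟩ := this _ ((hE' _ _).mpr ⟨n, h.1⟩)
    exact h.2.2 u hu

/-- Membership and non-membership. -/
def memO {ι : Type} (S : ι → Set (X × X)) (t : Bool) (i : ι) (a b : X) : Prop :=
  if t then (a, b) ∈ S i else (a, b) ∉ S i

theorem val_eq_memO {ι : Type} {c : ι → ℕ → ℕ} {S : ι → Set (X × X)}
    (h : ∀ i, Codes (c i) (S i)) : (fun t i a b => Val t (c i) (a, b)) = memO S := by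
  funext t i a b
  cases t
  · exact propext (val_false (h i))
  · exact propext (val_true (h i))

theorem sigma12_classP {ι : Type} [Countable ι] (P : Set (X × X) → Prop)
    (Bd : (Bool → Option ι → X → X → Prop) → (ℕ → X) → Prop)
    (hB : An fun c : (Option ι → ℕ → ℕ) × (ℕ → X) => Bd (fun t i a b => Val t (c.1 i) (a, b)) c.2)
    (hP : ∀ G, MeasurableSet G → IsGraph G → Regular Δ G → (P G ↔ ∃ S : Option ι → Set (X × X),
      (∀ i, MeasurableSet (S i)) ∧ S none = G ∧ ¬ ∃ x, Bd (memO S) x)) : Sigma12 (classP Δ P) := by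
  classical
  obtain ⟨d, hd, hd'⟩ := exists_decode (Ix Δ ⊕ ι)
  let r : Option ι → Ix Δ ⊕ ι := fun i => i.elim (.inl .g) .inr
  refine ⟨{p | ¬ (d p.2 (.inl .g) ≠ p.1 ∨ (∃ i, ¬ IsCode (d p.2 i)) ∨
    (∃ x z, Bad0 (fun t i a b => Val t (d p.2 (.inl i)) (a, b)) x z) ∨
    ∃ x, Bd (fun t i a b => Val t (d p.2 (r i)) (a, b)) x)}, ?_, ?_⟩
  · have hm : Measurable fun p : (ℕ → ℕ) × (ℕ → ℕ) => d p.2 := hd.measurable.comp measurable_snd
    have : An fun p : (ℕ → ℕ) × (ℕ → ℕ) => d p.2 (.inl .g) ≠ p.1 ∨ (∃ i, ¬ IsCode (d p.2 i)) ∨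
        (∃ x z, Bad0 (fun t i a b => Val t (d p.2 (.inl i)) (a, b)) x z) ∨
        ∃ x, Bd (fun t i a b => Val t (d p.2 (r i)) (a, b)) x :=
      .or (.of_meas (measurableSet_setOfPred.mp
        (measurableSet_eq_fun ((measurable_pi_apply _).comp hm) measurable_fst)).not) <|
      .or (.exc fun i => an_not_isCode.comp ((measurable_pi_apply i).comp hm)) <|
      .or (an_bad0.comp (f := fun p : (ℕ → ℕ) × (ℕ → ℕ) => fun i => d p.2 (.inl i))
        (measurable_pi_lambda _ fun i => (measurable_pi_apply _).comp hm))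
        ((An.ex (p := fun (c : Option ι → ℕ → ℕ) (x : ℕ → X) =>
          Bd (fun t i a b => Val t (c i) (a, b)) x) hB).comp (f := fun p : (ℕ → ℕ) × (ℕ → ℕ) => fun i => d p.2 (r i))
          (measurable_pi_lambda _ fun i => (measurable_pi_apply _).comp hm))
    refine (congrArg MeasureTheory.AnalyticSet ?_).mp this
    ext p
    simp only [mem_compl_iff, mem_ofPred_eq, not_not]
  · ext c
    constructor
    · rintro ⟨G, h0, h1, h2, h3, h4, h5⟩
      obtain ⟨S, hS, rfl, h⟩ := exists_not_bad0 h0.measurableSet h1 h2 h3 h4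
      obtain ⟨S', hS', e', h'⟩ := (hP _ h0.measurableSet h1 h2).mp h5
      choose k hk using fun i => exists_code (hS i)
      choose k' hk' using fun i => exists_code (hS' i)
      have hk1 : ∀ i, Codes (Function.update k .g c i) (S i) := fun i => by
        by_cases hi : i = .g
        · rwa [hi, Function.update_self]
        · rw [Function.update_of_ne hi]; exact hk i
      obtain ⟨w, hw⟩ := hd' (Sum.elim (Function.update k .g c) fun i => k' (some i))
      have hk2 : ∀ i, Codes (d w (r i)) (S' i) := by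
        rw [hw]
        rintro (_ | i)
        · rw [e']; exact hk1 .g
        · exact hk' _
      refine ⟨(c, w), ?_, rfl⟩
      simp only [mem_ofPred_eq, val_eq_memO hk2]
      simp only [hw, Sum.elim_inl, val_eq_mem hk1]
      rintro (h'' | ⟨i | i, h''⟩ | h'' | h'')
      · exact h'' (Function.update_self ..)
      · exact h'' ⟨_, hk1 i⟩
      · exact h'' ⟨_, hk' _⟩
      · exact h h''
      · exact h' h''
    · rintro ⟨⟨c, w⟩, h, rfl⟩
      simp only [mem_ofPred_eq, not_or, not_not, not_exists (p := fun i => ¬ IsCode _)] at h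
      obtain ⟨rfl, h1, h2, h3⟩ := h
      choose S hS using h1
      rw [val_eq_mem (S := fun i => S (.inl i)) fun i => hS _] at h2
      rw [val_eq_memO (S := fun i => S (r i)) fun i => hS _] at h3
      obtain ⟨g1, g2, g3, g4⟩ := of_not_bad0 (fun i => (hS (.inl i)).measurableSet) h2
      exact ⟨S (.inl .g), hS _, g1, g2, g3, g4, (hP _ (hS _).measurableSet g1 g2).mpr
        ⟨fun i => S (r i), fun i => (hS _).measurableSet, rfl, h3⟩⟩

end Pool.Agent.Lib.MP_88d9d7_lc
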