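import Pool.Agent.Lib.MP_88d9d7_lc.Ins.Red
import Pool.Agent.Lib.MP_88d9d7_lc.Ins.Up

/-!
Completeness of perfect matchings and sinkless orientations.
-/

set_option synthInstance.maxSize 2048

namespace Pool.Agent.Lib.MP_88d9d7_lc

open Set

variable {Δ : ℕ}

theorem an_w {ι : Type} [Countable ι] (t : Bool) (i : ι) (k l : ℕ) :
    An fun c : (ι → ℕ → ℕ) × (ℕ → X) => Val t (c.1 i) (c.2 k, c.2 l) :=
  an_val t (by fun_prop) (by fun_prop) (by fun_prop)

theorem an_ne {ι : Type} [Countable ι] (k l : ℕ) :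
    An fun c : (ι → ℕ → ℕ) × (ℕ → X) => c.2 k ≠ c.2 l :=
  .of_meas (measurableSet_setOfPred.mp (measurableSet_eq_fun (by fun_prop) (by fun_prop))).not

/-- `y` is the value at `x` of the function whose bits are coded. -/
def IsV (V : Bool → Option (Option ℕ) → X → X → Prop) (x y : X) : Prop :=
  ∀ m, ∃ t, y m = t ∧ V t (some (some m)) x x

theorem an_isV : An fun c : (Option (Option ℕ) → ℕ → ℕ) × (ℕ → X) =>
    IsV (fun t i a b => Val t (c.1 i) (a, b)) (c.2 0) (c.2 1) :=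
  .allc fun m => .exc fun t => .and (.of_meas (measurableSet_setOfPred.mp
    (measurableSet_eq_fun (by fun_prop) measurable_const))) (an_w ..)

theorem isV_iff {S : Option (Option ℕ) → Set (X × X)} {f : X → X}
    (hf : ∀ x m, (x, x) ∈ S (some (some m)) ↔ f x m = true) (x y : X) :
    IsV (memO S) x y ↔ f x = y := by
  rw [funext_iff]
  refine forall_congr' fun m => ?_
  cases h : y m <;> simp [memO, hf]

theorem exists_sel {G M : Set (X × X)} (hG : MeasurableSet G) (h : Regular Δ G)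
    (hM : MeasurableSet M) (h1 : M ⊆ G) (h2 : ∀ x, ∃ y, (x, y) ∈ M) :
    ∃ S : Option (Option ℕ) → Set (X × X), (∀ i, MeasurableSet (S i)) ∧ S none = G ∧
      S (some none) = M ∧ ∀ x y, IsV (memO S) x y → (x, y) ∈ M := by
  obtain ⟨f, hf1, -, hf3⟩ := exists_nbrs hG h
  obtain ⟨c, hc, hc'⟩ := exists_choice (α := X) (L := Fin Δ) (A := fun x j => (x, f x j) ∈ M)
    (fun j => hM.mem.comp (measurable_id.prodMk ((measurable_pi_apply j).comp hf1))) fun x => by
      obtain ⟨y, hy⟩ := h2 x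
      obtain ⟨j, rfl⟩ := (hf3 _ _).mp (h1 hy)
      exact ⟨j, hy⟩
  have hm : Measurable fun x => f x (c x) :=
    (measurable_from_prod_countable_left (f := fun p : X × Fin Δ => f p.1 p.2)
      fun j => (measurable_pi_apply j).comp hf1).comp (measurable_id.prodMk hc)
  let S : Option (Option ℕ) → Set (X × X) := fun i => match i with
    | none => G
    | some none => M
    | some (some m) => {q | f q.1 (c q.1) m = true}
  refine ⟨S, ?_, rfl, rfl, fun x y hxy => ?_⟩
  · rintro (_ | _ | m)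
    · exact hG
    · exact hM
    · exact measurableSet_eq_fun ((measurable_pi_apply m).comp (hm.comp measurable_fst))
        measurable_const
  · rw [← (isV_iff (S := S) (f := fun x => f x (c x)) (fun _ _ => Iff.rfl) x y).mp hxy]
    exact hc' x

theorem exists_isV (S : Option (Option ℕ) → Set (X × X)) (x : X) : ∃ y, IsV (memO S) x y := by
  classical
  exact ⟨_, (isV_iff (f := fun x m => decide ((x, x) ∈ S (some (some m))))
    (fun x m => by simp) x _).mpr rfl⟩

theorem sigma12_match : Sigma12 (classP Δ BorelMatching) := by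
  refine sigma12_classP (ι := Option ℕ) _ (fun V x =>
    (V true (some none) (x 0) (x 1) ∧ V false none (x 0) (x 1)) ∨
    (V true (some none) (x 0) (x 1) ∧ V false (some none) (x 1) (x 0)) ∨
    (IsV V (x 0) (x 1) ∧ V false (some none) (x 0) (x 1)) ∨
    (V true (some none) (x 0) (x 1) ∧ V true (some none) (x 0) (x 2) ∧ x 1 ≠ x 2))
    (.or (.and (an_w ..) (an_w ..)) <| .or (.and (an_w ..) (an_w ..)) <|
      .or (.and an_isV (an_w ..)) (.and (an_w ..) (.and (an_w ..) (an_ne 1 2))))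
    fun G hG _ hR => ⟨?_, ?_⟩
  · rintro ⟨M, hM, h1, h2, h3⟩
    obtain ⟨S, hS, rfl, rfl, h4⟩ := exists_sel hG hR hM h1 fun x => (h3 x).exists
    refine ⟨S, hS, rfl, ?_⟩
    rintro ⟨x, h | h | h | h⟩
    · exact h.2 (h1 h.1)
    · exact h.2 (h2 _ _ h.1)
    · exact h.2 (h4 _ _ h.1)
    · exact h.2.2 ((h3 _).unique h.1 h.2.1)
  · rintro ⟨S, hS, rfl, h⟩
    have t := fun a b c => not_exists.mp h (tri a b c)
    simp only [tri, not_or, not_and, not_not] at t
    refine ⟨S (some none), hS _, fun q hq => not_not.mp ((t q.1 q.2 q.1).1 hq),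
      fun a b hab => not_not.mp ((t a b a).2.1 hab), fun a => ?_⟩
    obtain ⟨b, hb⟩ := exists_isV S a
    have hb' : (a, b) ∈ S (some none) := not_not.mp ((t a b a).2.2.1 hb)
    exact ⟨b, hb', fun c hc => (t a c b).2.2.2 hc hb'⟩

theorem sigma12_sink : Sigma12 (classP Δ BorelSinkless) := by
  refine sigma12_classP (ι := Option ℕ) _ (fun V x =>
    (V true (some none) (x 0) (x 1) ∧ V false none (x 0) (x 1)) ∨
    (V true none (x 0) (x 1) ∧ V true (some none) (x 0) (x 1) ∧ V true (some none) (x 1) (x 0)) ∨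
    (V true none (x 0) (x 1) ∧ V false (some none) (x 0) (x 1) ∧
      V false (some none) (x 1) (x 0)) ∨
    (IsV V (x 0) (x 1) ∧ V false (some none) (x 0) (x 1)))
    (.or (.and (an_w ..) (an_w ..)) <| .or (.and (an_w ..) (.and (an_w ..) (an_w ..))) <|
      .or (.and (an_w ..) (.and (an_w ..) (an_w ..))) (.and an_isV (an_w ..)))
    fun G hG _ hR => ⟨?_, ?_⟩
  · rintro ⟨M, hM, h1, h2, h3⟩
    obtain ⟨S, hS, rfl, rfl, h4⟩ := exists_sel hG hR hM h1 h3
    refine ⟨S, hS, rfl, ?_⟩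
    rintro ⟨x, h | h | h | h⟩
    · exact h.2 (h1 h.1)
    · exact (h2 _ _ h.1).mp h.2.1 h.2.2
    · exact h.2.1 ((h2 _ _ h.1).mpr h.2.2)
    · exact h.2 (h4 _ _ h.1)
  · rintro ⟨S, hS, rfl, h⟩
    have t := fun a b c => not_exists.mp h (tri a b c)
    simp only [tri, not_or, not_and] at t
    refine ⟨S (some none), hS _, fun q hq => not_not.mp ((t q.1 q.2 q.1).1 hq),
      fun a b hab => ⟨(t a b a).2.1 hab, fun h' => ?_⟩, fun a => ?_⟩
    · by_contra h''
      exact (t a b a).2.2.1 hab h'' h'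
    · obtain ⟨b, hb⟩ := exists_isV S a
      exact ⟨b, not_not.mp ((t a b a).2.2.2 hb)⟩

theorem complete_of {P : Set (X × X) → Prop} (h : Sigma12 (classP Δ P))
    (h' : ∀ B : Set (ℕ → Bool), Sigma12 B →
      ∃ (f : (ℕ → Bool) → ℕ → ℕ) (G : (ℕ → Bool) → Set (X × X)), Measurable f ∧ ∀ p,
        Codes (f p) (G p) ∧ (IsGraph (G p) ∧ Regular Δ (G p) ∧ Acyclic (G p) ∧
          Hyperfinite (G p)) ∧ (p ∈ B ↔ P (G p))) : CompleteIn (classC Δ) (classP Δ P) := by
  refine ⟨h, fun B hB => ?_⟩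
  obtain ⟨f, G, hf, hG⟩ := h' B hB
  refine ⟨f, hf, fun p => ?_⟩
  obtain ⟨h1, h2, h3⟩ := hG p
  refine ⟨⟨_, h1, h2⟩, fun hp => ⟨_, h1, h2.1, h2.2.1, h2.2.2.1, h2.2.2.2, h3.mp hp⟩, ?_⟩
  rintro ⟨G', h0, -, -, -, -, h4⟩
  obtain rfl := h1.unique h0
  exact h3.mpr h4

theorem hard_sinkless (n : ℕ) {B : Set (ℕ → Bool)} (hB : Sigma12 B) :
    ∃ S : (ℕ → Bool) → Sys (Fin (n + 3)) X,
      (∀ j, Measurable fun x : (ℕ → Bool) × X => (S x.1).τ j x.2) ∧
      (Measurable fun x : (ℕ → Bool) × X => (S x.1).φ x.2) ∧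
      ∀ p, p ∈ B ↔ ∃ c : X → Fin (n + 3), Measurable c ∧
        ∀ x j, ¬ (c ((S p).τ j x) = j ∧ c x = j) :=
  hardL (fun j a b => ¬ (a = j ∧ b = j)) (Fin.castLE (by omega))
    (fun _ _ _ h e => h (Fin.castLE_injective _ (e.1.trans e.2.symm))) id
    (fun _ _ _ h h' e => e ⟨h, h'⟩) hB

theorem complete_match (n : ℕ) : CompleteIn (classC (n + 3)) (classP (n + 3) BorelMatching) := by
  refine complete_of sigma12_match fun B hB => ?_
  obtain ⟨S, h1, h2, h3⟩ := hard_sinkless n hB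
  obtain ⟨f, G, hf, hG⟩ := exists_gad h1 h2
  exact ⟨f, G, hf, fun p => ⟨(hG p).1, (hG p).2.1, (h3 p).trans (hG p).2.2.symm⟩⟩

theorem complete_sink (n : ℕ) : CompleteIn (classC (n + 3)) (classP (n + 3) BorelSinkless) := by
  refine complete_of sigma12_sink fun B hB => ?_
  obtain ⟨S, h1, h2, h3⟩ := hard_sinkless n hB
  obtain ⟨f, hf, hf'⟩ := coded_of_measurableSet (P := ℕ → Bool)
    (S := {x | ∃ j, (S x.1).τ j x.2.1 = x.2.2}) (measurableSet_setOfPred.mpr <| .exists fun j =>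
      measurableSet_setOfPred.mp (measurableSet_eq_fun
        ((h1 j).comp (measurable_fst.prodMk measurable_snd.fst)) measurable_snd.snd))
  refine ⟨f, fun p => {q | ∃ j, (S p).τ j q.1 = q.2}, hf, fun p => ?_⟩
  have hτ : ∀ j, Measurable ((S p).τ j) := fun j =>
    (h1 j).comp (measurable_const.prodMk measurable_id)
  have hG := (S p).graph hτ (h2.comp (measurable_const.prodMk measurable_id))
  refine ⟨hf' p, hG, (h3 p).trans ⟨?_, ?_⟩⟩
  · rintro ⟨s, hs, h⟩
    obtain ⟨g, hg⟩ : ∃ g : X → ℝ, MeasurableEmbedding g :=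
      ⟨_, MeasureTheory.measurableEmbedding_embeddingReal X⟩
    refine ⟨{q | ∃ j, (S p).τ j q.1 = q.2 ∧ (s q.1 = j ∨ (s q.2 ≠ j ∧ g q.1 < g q.2))},
      measurableSet_setOfPred.mpr (.exists fun j => .and (measurableSet_setOfPred.mp
        (measurableSet_eq_fun ((hτ j).comp measurable_fst) measurable_snd)) <| .or
          (measurableSet_setOfPred.mp (measurableSet_eq_fun (hs.comp measurable_fst)
            measurable_const)) <| .and (measurableSet_setOfPred.mp (measurableSet_eq_fun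
              (hs.comp measurable_snd) measurable_const)).not (measurableSet_setOfPred.mp
                (measurableSet_lt (hg.measurable.comp measurable_fst)
                  (hg.measurable.comp measurable_snd)))),
      fun q ⟨j, hj, _⟩ => ⟨j, hj⟩, ?_, fun x => ⟨(S p).τ (s x) x, s x, rfl, Or.inl rfl⟩⟩
    rintro x y ⟨j, rfl : (S p).τ j x = y⟩
    have hinj : ∀ z i k, (S p).τ i z = (S p).τ k z → i = k := fun z i k e => by
      by_contra hne
      refine (S p).free z (u := [i, k]) ⟨by simpa [Red] using hne, by simp⟩ ?_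
      rw [act_cons, act_cons, act_nil, e, (S p).inv]
    have e1 : ∀ (z : X) (Q : Fin (n + 3) → Prop), (∃ i, (S p).τ i z = (S p).τ j z ∧ Q i) ↔ Q j :=
      fun z Q => ⟨fun ⟨i, hi, hQ⟩ => hinj z i j hi ▸ hQ, fun hQ => ⟨j, rfl, hQ⟩⟩
    have e2 := e1 ((S p).τ j x) fun i => s ((S p).τ j x) = i ∨ (s x ≠ i ∧ g ((S p).τ j x) < g x)
    rw [(S p).inv] at e2
    simp only [mem_ofPred_eq]
    rw [e1 x, e2]
    have e3 := h x j
    have e4 : g x ≠ g ((S p).τ j x) := fun e => (S p).ne x j (hg.injective e).symm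
    by_cases a1 : s x = j <;> by_cases a2 : s ((S p).τ j x) = j
    · exact absurd ⟨a2, a1⟩ e3
    · simp [a1, a2]
    · simp [a1, a2]
    · simpa [a1, a2] using ⟨le_of_lt, fun h => lt_of_le_of_ne h e4⟩
  · rintro ⟨O, hO, a1, a2, a3⟩
    obtain ⟨s, hs, hs'⟩ := exists_choice (α := X) (L := Fin (n + 3))
      (A := fun x j => (x, (S p).τ j x) ∈ O)
      (fun j => hO.mem.comp (measurable_id.prodMk (hτ j))) fun x => by
        obtain ⟨y, hy⟩ := a3 x
        obtain ⟨j, rfl : (S p).τ j x = y⟩ := a1 hy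
        exact ⟨j, hy⟩
    refine ⟨s, hs, fun x j h => ?_⟩
    have e1 := hs' x
    have e2 := hs' ((S p).τ j x)
    rw [h.2] at e1
    rw [h.1, (S p).inv] at e2
    exact (a2 _ _ ⟨j, rfl⟩).mp e1 e2

end Pool.Agent.Lib.MP_88d9d7_lc
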