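import Pool.Agent.Lib.MP_88d9d7_lc.Ins.Nbr

/-!
The gadget: every edge is subdivided once and trees are attached to the new vertices.
-/

set_option synthInstance.maxSize 2048
set_option linter.unusedSectionVars false

namespace Pool.Agent.Lib.MP_88d9d7_lc

open Set

/-- Names of the vertices above a point: the point itself, or a node of the tree of an edge. -/
inductive Nm (n : ℕ) : Type
  | pt : Nm n
  | nd (j : Fin (n + 3)) (w : List (Fin (n + 2))) : Nm n

instance (n : ℕ) : Countable (Nm n) := by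
  have : Function.Surjective fun x : Option (Fin (n + 3) × List (Fin (n + 2))) => match x with
      | none => (Nm.pt : Nm n)
      | some p => .nd p.1 p.2 := by
    rintro (_ | ⟨j, w⟩)
    exacts [⟨none, rfl⟩, ⟨some (j, w), rfl⟩]
  exact this.countable

instance (n : ℕ) : MeasurableSpace (Nm n) := ⊤
instance (n : ℕ) : DiscreteMeasurableSpace (Nm n) := ⟨fun _ => trivial⟩

variable {n : ℕ}

/-- The edge that matters. -/
def ed : Nm n → Fin (n + 3) → Fin (n + 3)
  | .pt, k => k
  | .nd j _, _ => j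

/-- The level of a name. -/
def lev : Nm n → ℕ
  | .pt => 0
  | .nd _ w => w.length

/-- Whether the base point moves, and the new name. -/
def nx (o : Bool) : Nm n → Fin (n + 3) → Bool × Nm n
  | .pt, k => (!o, .nd k [])
  | .nd j [], k => Fin.cases (if o then (false, .pt) else (true, .nd j [0]))
      (fun a => if o ∧ a = 0 then (true, .pt) else (false, .nd j [a])) k
  | .nd j (a :: w), k => Fin.cases
      (if o ∧ w = [] ∧ a = 0 then (true, .nd j []) else (false, .nd j w))
      (fun b => (false, .nd j (b :: a :: w))) k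

/-- The index leading back. -/
def bk (o : Bool) : Nm n → Fin (n + 3) → Fin (n + 3)
  | .pt, _ => if o then 0 else Fin.succ 0
  | .nd j [], k => Fin.cases (if o then j else 0) (fun a => if o ∧ a = 0 then j else 0) k
  | .nd _ (a :: w), k => Fin.cases (if o ∧ w = [] ∧ a = 0 then 0 else a.succ) (fun _ => 0) k

variable {Z : Type} (S : Sys (Fin (n + 3)) Z) (o : Z → Fin (n + 3) → Bool)

/-- The neighbour function of the gadget. -/
def gad (v : Z × Nm n) (k : Fin (n + 3)) : Z × Nm n :=
  (if (nx (o v.1 (ed v.2 k)) v.2 k).1 then S.τ (ed v.2 k) v.1 else v.1,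
    (nx (o v.1 (ed v.2 k)) v.2 k).2)

variable {o}

theorem Sys.ne (z : Z) (j : Fin (n + 3)) : S.τ j z ≠ z := S.free z (edge_single j)

theorem gad_none (z : Z) (k) : gad S o (z, .pt) k = (if o z k then z else S.τ k z, .nd k []) := by
  cases h : o z k <;> simp [gad, nx, ed, h]

theorem gad_root0 (z : Z) (j) : gad S o (z, .nd j []) 0 =
    if o z j then (z, .pt) else (S.τ j z, .nd j [0]) := by
  cases h : o z j <;> simp [gad, nx, ed, h]

theorem gad_rootS (z : Z) (j) (a : Fin (n + 2)) : gad S o (z, .nd j []) a.succ =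
    if o z j ∧ a = 0 then (S.τ j z, .pt) else (z, .nd j [a]) := by
  by_cases h : o z j ∧ a = 0
  · simp only [gad, nx, ed, Fin.cases_succ, if_pos h, if_true]
  · simp only [gad, nx, ed, Fin.cases_succ, if_neg h, Bool.false_eq_true, if_false]

theorem gad_cons0 (z : Z) (j) (a : Fin (n + 2)) (w) : gad S o (z, .nd j (a :: w)) 0 =
    if o z j ∧ w = [] ∧ a = 0 then (S.τ j z, .nd j []) else (z, .nd j w) := by
  by_cases h : o z j ∧ w = [] ∧ a = 0
  · simp only [gad, nx, ed, Fin.cases_zero, if_pos h, if_true]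
  · simp only [gad, nx, ed, Fin.cases_zero, if_neg h, Bool.false_eq_true, if_false]

theorem gad_consS (z : Z) (j) (a b : Fin (n + 2)) (w) : gad S o (z, .nd j (a :: w)) b.succ =
    (z, .nd j (b :: a :: w)) := by
  simp only [gad, nx, ed, Fin.cases_succ, Bool.false_eq_true, if_false]

theorem gad_back (ho : ∀ z j, o (S.τ j z) j = !o z j) (v : Z × Nm n) (k) :
    gad S o (gad S o v k) (bk (o v.1 (ed v.2 k)) v.2 k) = v := by
  obtain ⟨z, _ | ⟨j, _ | ⟨a, w⟩⟩⟩ := v
  · rw [gad_none]
    cases h : o z k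
    · simp only [bk, ed, h, Bool.false_eq_true, if_false, gad_rootS, ho, S.inv, Bool.not_false,
        and_self, if_true]
    · simp [bk, ed, h, gad_root0]
  · refine Fin.cases ?_ (fun a => ?_) k
    · rw [gad_root0]
      cases h : o z j <;> simp [bk, ed, h, gad_none, gad_cons0, ho, S.inv]
    · rw [gad_rootS]
      by_cases h : o z j ∧ a = 0
      · simp only [bk, ed, Fin.cases_succ, if_pos h, gad_none]
        simp [ho, h.1, S.inv]
      · simp only [bk, ed, Fin.cases_succ, if_neg h, gad_cons0, true_and]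
  · refine Fin.cases ?_ (fun b => ?_) k
    · rw [gad_cons0]
      by_cases h : o z j ∧ w = [] ∧ a = 0
      · simp [bk, ed, h, gad_root0, ho, S.inv]
      · simp only [bk, ed, Fin.cases_zero, if_neg h]
        cases w with
        | nil => rw [gad_rootS, if_neg (by simpa using h)]
        | cons b w => rw [gad_consS]
    · simp [gad_consS, bk, gad_cons0]

theorem gad_inj (v : Z × Nm n) : Function.Injective (gad S o v) := by
  obtain ⟨z, _ | ⟨j, _ | ⟨a, w⟩⟩⟩ := v
  · intro k k' e
    rw [gad_none, gad_none] at e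
    simpa using (Prod.mk.inj e).2
  · intro k k'
    have h0 := S.ne z j
    refine Fin.cases ?_ (fun a => ?_) k <;> refine Fin.cases ?_ (fun b => ?_) k' <;>
      simp only [gad_root0, gad_rootS] <;> (try split_ifs) <;> intro e <;>
      first
      | trivial
      | exact absurd (Prod.mk.inj e).1 h0
      | exact absurd (Prod.mk.inj e).1.symm h0
      | (have := (Prod.mk.inj e).2; simp_all)
  · intro k k'
    refine Fin.cases ?_ (fun a => ?_) k <;> refine Fin.cases ?_ (fun b => ?_) k' <;>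
      simp only [gad_cons0, gad_consS] <;> (try split_ifs) <;> intro e <;>
      first
      | rfl
      | trivial
      | (have := congrArg (fun v => lev v.2) e; simp [lev] at this; omega)
      | (have := (Prod.mk.inj e).2; simp_all)

theorem gad_irr (v : Z × Nm n) (k) : gad S o v k ≠ v := by
  obtain ⟨z, _ | ⟨j, _ | ⟨a, w⟩⟩⟩ := v
  · rw [gad_none]; intro e; cases (Prod.mk.inj e).2
  · refine Fin.cases ?_ (fun a => ?_) k <;> simp only [gad_root0, gad_rootS] <;> split_ifs <;>
      intro e <;> cases (Prod.mk.inj e).2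
  · refine Fin.cases ?_ (fun a => ?_) k <;> simp only [gad_cons0, gad_consS] <;> (try split_ifs) <;>
      intro e <;> have := congrArg (fun v => lev v.2) e <;> simp [lev] at this

theorem gad_base (v : Z × Nm n) (k) :
    (gad S o v k).1 = v.1 ∨ (gad S o v k).1 = S.τ (ed v.2 k) v.1 := by
  unfold gad
  split_ifs <;> simp

theorem gad_nb (ho : ∀ z j, o (S.τ j z) j = !o z j) (x : ℕ → Z × Nm n) (m : ℕ) (hm : 0 < m)
    (h1 : ∀ i, ∃ k, gad S o (x i) k = x (i + 1)) (h2 : ∀ i, x (i + 2) ≠ x i) :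
    ¬ ∀ i, x (i + m) = x i := by
  intro h3
  have hb : ∀ i, ∃ k, gad S o (x (i + 1)) k = x i := fun i => by
    obtain ⟨k, hk⟩ := h1 i
    exact ⟨_, hk ▸ gad_back S ho (x i) k⟩
  have hper : ∀ q i, x (i + q * m) = x i := fun q i => by
    induction q with
    | zero => simp
    | succ q ih => rw [Nat.succ_mul, ← add_assoc, h3, ih]
  have hmod : ∀ i, x (i % m) = x i := fun i => by
    rw [← hper (i / m) (i % m), Nat.mod_add_div']
  obtain ⟨i0, -, hi0⟩ := Finset.exists_max_image (Finset.range m) (fun i => lev (x i).2)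
    ⟨0, by simpa using hm⟩
  have hmax : ∀ i, lev (x i).2 ≤ lev (x (i0 + m - 1 + 1)).2 := fun i => by
    rw [show i0 + m - 1 + 1 = i0 + m by omega, h3, ← hmod i]
    exact hi0 _ (by simpa using Nat.mod_lt i hm)
  have hlev : ∀ i, lev (x i).2 = 0 := by
    generalize i0 + m - 1 = i1 at hmax
    obtain ⟨k, hk⟩ := h1 (i1 + 1)
    obtain ⟨k', hk'⟩ := hb i1
    have e1 := hmax (i1 + 1 + 1)
    have e2 := hmax i1
    have e3 := h2 i1
    rw [show i1 + 2 = i1 + 1 + 1 from rfl, ← hk, ← hk'] at e3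
    rw [← hk] at e1
    rw [← hk'] at e2
    intro i
    have e4 := hmax i
    generalize x (i1 + 1) = v at e1 e2 e3 e4
    obtain ⟨z, _ | ⟨j, _ | ⟨a, w⟩⟩⟩ := v
    · simpa [lev] using e4
    · simpa [lev] using e4
    · exfalso
      revert e1 e2 e3
      refine Fin.cases ?_ (fun a => ?_) k <;> refine Fin.cases ?_ (fun b => ?_) k' <;>
        simp [gad_consS, lev]
  have hroot : ∀ z j k, lev (gad S o (z, .nd j []) k).2 = 0 → o z j = true ∧
      (gad S o (z, .nd j []) k = (z, .pt) ∨ gad S o (z, .nd j []) k = (S.τ j z, .pt)) := by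
    intro z j k
    refine Fin.cases ?_ (fun a => ?_) k <;> simp only [gad_root0, gad_rootS] <;> split_ifs <;>
      simp_all [lev]
  have step : ∀ i z, x i = (z, .pt) → ∃ j, x (i + 1) = gad S o (z, .pt) j ∧
      x (i + 2) = (S.τ j z, .pt) := fun i z hz => by
    obtain ⟨j, hj⟩ := h1 i
    obtain ⟨k, hk⟩ := h1 (i + 1)
    rw [hz] at hj
    refine ⟨j, hj.symm, ?_⟩
    have e1 := h2 i
    have e2 := hlev (i + 1 + 1)
    rw [show i + 2 = i + 1 + 1 from rfl, ← hk, ← hj, gad_none] at *
    rw [hz] at e1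
    obtain ⟨-, e3 | e3⟩ := hroot _ _ _ e2 <;> rw [e3] at e1 ⊢ <;> split_ifs at e1 ⊢ <;>
      simp_all [S.inv]
  obtain ⟨s, z0, hz0⟩ : ∃ s z, x s = (z, .pt) := by
    have e1 := hlev 0
    have e2 := hlev (0 + 1)
    obtain ⟨k, hk⟩ := h1 0
    rcases h0 : x 0 with ⟨z, _ | ⟨j, _ | ⟨a, w⟩⟩⟩
    · exact ⟨0, z, h0⟩
    · rw [← hk, h0] at e2
      obtain ⟨-, e3 | e3⟩ := hroot _ _ _ e2 <;> exact ⟨0 + 1, _, by rw [← hk, h0, e3]⟩
    · simp [h0, lev] at e1
  choose! J hJ using step
  have hx : ∀ i, x (s + 2 * i) = ((x (s + 2 * i)).1, .pt) := fun i => by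
    induction i with
    | zero => simp [hz0]
    | succ i ih => rw [show s + 2 * (i + 1) = s + 2 * i + 2 from rfl, (hJ _ _ ih).2]
  let z : ℕ → Z := fun i => (x (s + 2 * i)).1
  let j : ℕ → Fin (n + 3) := fun i => J (s + 2 * i) (z i)
  have hz : ∀ i, z (i + 1) = S.τ (j i) (z i) := fun i => congrArg Prod.fst (hJ _ _ (hx i)).2
  have e : ∀ i, act S.τ (z 0) ((List.range i).map j) = z i := fun i => by
    induction i with
    | zero => rfl
    | succ i ih => rw [List.range_succ, List.map_append, act_append, ih, hz]; rfl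
  refine S.free (z 0) (u := (List.range m).map j) ⟨?_, by simp; omega⟩ ((e m).trans ?_)
  · obtain ⟨m, rfl⟩ : ∃ k, m = k + 1 := ⟨m - 1, by omega⟩
    rw [Red, List.isChain_map, List.isChain_range_succ]
    intro i _ e'
    refine h2 (s + 2 * i + 1) ?_
    have e1 : x (s + 2 * (i + 1) + 1) = gad S o (z (i + 1), .pt) (j (i + 1)) := (hJ _ _ (hx _)).1
    have e2 : x (s + 2 * i + 1) = gad S o (z i, .pt) (j i) := (hJ _ _ (hx _)).1
    have e3 : j (i + 1) = j i := e'.symm
    rw [show s + 2 * i + 1 + 2 = s + 2 * (i + 1) + 1 from rfl, e1, e2, e3, hz, gad_none, gad_none,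
      ho, S.inv]
    cases o (z i) (j i) <;> rfl
  · exact congrArg Prod.fst (hper 2 s)

end Pool.Agent.Lib.MP_88d9d7_lc
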