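import Pool.Agent.Lib.MP_88d9d7_lc.Ins.Sink

/-!
The diagonal argument for every labelling problem that lies between three-colouring and sinkless
colouring.
-/

set_option synthInstance.maxSize 2048
set_option linter.unusedSectionVars false

namespace Pool.Agent.Lib.MP_88d9d7_lc

open Set

variable {D : Type} [Fintype D] [LinearOrder D] {L : Type} [Countable L]

/-- The sets coded by `c`, read through `pt`, do not solve the problem `R` on the part given by `T`. -/
def NQL (R : D → L → L → Prop) (c : L → ℕ → ℕ) (pt : Y D → X) (T : List ℕ → Bool) : Prop :=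
  (∃ k, ¬ IsCode (c k)) ∨ ∃ y, Act T y ∧ ((∀ k, Val false (c k) (pt y, pt y)) ∨
    ∃ k k' j, ¬ R j k' k ∧ Val true (c k) (pt y, pt y) ∧
      Val true (c k') (pt ((sysY _).τ j y), pt ((sysY _).τ j y)))

theorem an_NQL (R : D → L → L → Prop) {dec : (ℕ → ℕ) → L → ℕ → ℕ} (hdec : Measurable dec)
    {pt : (ℕ → ℕ) → Y D → X} (hpt : Measurable fun x : (ℕ → ℕ) × Y D => pt x.1 x.2) :
    An fun x : (ℕ → ℕ) × (List ℕ → Bool) => NQL R (dec x.1) (pt x.1) x.2 := by
  refine .or (.exc fun k => an_not_isCode.comp (by fun_prop)) (An.ex ?_)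
  have h1 : Measurable fun x : ((ℕ → ℕ) × (List ℕ → Bool)) × Y D => pt x.1.1 x.2 :=
    hpt.comp (measurable_fst.fst.prodMk measurable_snd)
  have h2 : ∀ j, Measurable fun x : ((ℕ → ℕ) × (List ℕ → Bool)) × Y D =>
      pt x.1.1 ((sysY _).τ j x.2) := fun j =>
    hpt.comp (measurable_fst.fst.prodMk ((measurable_sgY j).comp measurable_snd))
  exact .and (.of_meas (measurable_Act measurable_fst.snd measurable_snd)) <|
    .or (.allc fun k => an_val _ (by fun_prop) h1 h1) <| .exc fun k => .exc fun k' => .exc fun j =>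
      .and (.of_meas measurable_const) <|
        .and (an_val _ (by fun_prop) h1 h1) (an_val _ (by fun_prop) (h2 j) (h2 j))

theorem hardL [Nontrivial D] [MeasurableSpace D] [MeasurableSingletonClass D] [MeasurableSpace L]
    [MeasurableSingletonClass L] (R : D → L → L → Prop) (t : Fin 3 → L)
    (ht : ∀ j a b, a ≠ b → R j (t a) (t b)) (s : L → D)
    (hs : ∀ j a b, s a = j → s b = j → ¬ R j a b) {B : Set (ℕ → Bool)} (hB : Sigma12 B) :
    ∃ S : (ℕ → Bool) → Sys D X, (∀ j, Measurable fun x : (ℕ → Bool) × X => (S x.1).τ j x.2) ∧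
      (Measurable fun x : (ℕ → Bool) × X => (S x.1).φ x.2) ∧
      ∀ p, p ∈ B ↔ ∃ c : X → L, Measurable c ∧ ∀ x j, R j (c ((S p).τ j x)) (c x) := by
  classical
  obtain ⟨P, hP, rfl⟩ := hB
  obtain ⟨y0, hy0⟩ : (Y D).Nonempty := by
    by_contra h
    exact no_colouring (fun _ => Classical.arbitrary D) measurable_const
      fun y hy => absurd ⟨y, hy⟩ h
  obtain ⟨z0, hz0⟩ := exists_not_dom hy0
  let v0 : Y1 D z0 := ⟨⟨y0, hy0⟩, hz0⟩
  let e : ((ℕ → ℕ) × Y D × Y1 D z0) ≃ᵐ X :=
    PolishSpace.measurableEquivOfNotCountable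
      (fun h => not_countable_pi (zero_ne_one (α := ℕ)) (Function.Injective.countable
        (f := fun d => (d, v0.1, v0)) fun _ _ e => (Prod.mk.inj e).1))
      (not_countable_pi Bool.false_ne_true)
  obtain ⟨dec, hdec, hdec'⟩ := exists_decode L
  let pt : (ℕ → ℕ) → Y D → X := fun d y => e (d, y, v0)
  have hpt : Measurable fun x : (ℕ → ℕ) × Y D => pt x.1 x.2 :=
    e.measurable.comp (by fun_prop)
  obtain ⟨V, hV1, -, hV⟩ := exists_tree (κ := ℕ × Bool)
    (ι := fun (x : (ℕ → ℕ) × (List ℕ → Bool)) n => (x.1 n, x.2 (Denumerable.ofNat _ n)))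
    (by fun_prop) (fun x x' h => Prod.ext (funext fun n => congrArg Prod.fst (congrFun h n))
      (funext fun t => by simpa using congrArg Prod.snd (congrFun h (Encodable.encode t))))
    (an_NQL R hdec.measurable hpt)
  obtain ⟨U, hU1, hU2, hU⟩ := exists_tree (κ := Bool × ℕ)
    (ι := fun (x : (ℕ → Bool) × (ℕ → ℕ)) n => (x.1 n, x.2 n)) (by fun_prop)
    (fun x x' h => Prod.ext (funext fun n => congrArg Prod.fst (congrFun h n))
      (funext fun n => congrArg Prod.snd (congrFun h n))) (p := fun x => x ∉ P) hP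
  let g : ℕ ⊕ List ℕ ≃ ℕ := Denumerable.eqv _
  obtain ⟨Θ, hΘ1, hΘ⟩ := exists_self (κ := Bool × ℕ) (isClosed_embeds
    (U := fun x => U (fun n => (x.1 n).1, fun n => x.2.2 (g (.inl n))))
    (V := fun x => V (fun n => (x.1 n).2, x.2.1)) (h := fun x u => x.2.2 (g (.inr u)))
    (hU1.comp (by fun_prop)) (hV1.comp (by fun_prop)) (by fun_prop))
  let T : (ℕ → Bool) → (ℕ → ℕ) → List ℕ → Bool := fun p d => Θ fun n => (p n, d n)
  have hT : ∀ p d z, Br (T p d ·) z ↔ ∀ u, U (p, fun n => z (g (.inl n))) u →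
      V (d, T p d) (emb (fun u => z (g (.inr u))) u) := fun p d z => hΘ _ z
  have hTm : Measurable fun x : (ℕ → Bool) × (ℕ → ℕ) => T x.1 x.2 :=
    (hΘ1.comp (by fun_prop)).measurable
  obtain ⟨M1, M2⟩ := measurable_sysZ (D := D) z0 (T := fun x : (ℕ → Bool) × X => T x.1)
    (hTm.comp (measurable_fst.fst.prodMk measurable_snd)) (e.symm.measurable.comp measurable_snd)
  refine ⟨fun p => (sysZ z0 (T p)).map e.toEquiv, fun j => e.measurable.comp (M1 j), M2,
    fun p => ?_⟩
  have hTp : Measurable (T p) := hTm.comp (measurable_const.prodMk measurable_id)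
  obtain ⟨m1, m2⟩ := measurable_sysZ (D := D) z0 (T := fun _ => T p)
    (hTp.comp measurable_snd) measurable_id
  have hτ : ∀ d (y : Y D) v j, Act (T p d) y →
      (sysZ z0 (T p)).τ j (d, y, v) = (d, (sysY _).τ j y, v) := fun d y v j h => if_pos h
  refine ⟨?_, ?_⟩
  · rintro ⟨⟨p', a⟩, ha, rfl : p' = p⟩
    rename' p' => p
    obtain ⟨Γ, h, hΓ, hh, hΓ1, hΓ2⟩ := exists_emb (U := (U (p, a) ·)) (hU2 _)
      (fun hw => (hU _).mpr hw ha) (V := fun d v => V (d, T p d) v) fun v =>
        measurableSet_setOfPred.mp (measurableSet_eq_fun ((measurable_pi_apply v).comp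
          (hV1.measurable.comp (measurable_id.prodMk hTp))) measurable_const)
    let zd : (ℕ → ℕ) → ℕ → ℕ := fun d n => Sum.elim a (h d) (g.symm n)
    have hzd : Measurable zd := measurable_pi_lambda _ fun n => by
      simp only [zd]
      cases g.symm n with
      | inl k => exact measurable_const
      | inr u => exact (measurable_pi_apply u).comp hh
    have hbr : ∀ d, Γ d → Br (T p d ·) (zd d) := fun d hd => (hT p d _).mpr (by
      simpa only [zd, Equiv.symm_apply_apply, Sum.elim_inl, Sum.elim_inr] using hΓ2 d hd)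
    have hact : MeasurableSet {q : (ℕ → ℕ) × Y D × Y1 D z0 | Act (T p q.1) q.2.1} :=
      measurableSet_setOfPred.mpr (measurable_Act (hTp.comp measurable_fst) measurable_snd.fst)
    have hinv : ∀ (j : D) q, ((sysZ z0 (T p)).τ j q).1 = q.1 ∧
        (Act (T p q.1) ((sysZ z0 (T p)).τ j q).2.1 ↔ Act (T p q.1) q.2.1) := fun j q => by
      by_cases hq : Act (T p q.1) q.2.1 <;> simp [sysZ, hq, act_sg]
    obtain ⟨c, hc, hc'⟩ := (sysZ z0 (T p)).exists_col m1 m2
      (ν := fun q => if Act (T p q.1) q.2.1 then nu (zd q.1) else nu z0)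
      (.ite hact (measurable_nu.comp (hzd.comp measurable_fst)) measurable_const)
      (fun q => by split_ifs <;> exact nu_mono _)
      (fun j q => by simp only [(hinv j q).1, (hinv j q).2])
    have hQ : ∀ d, ¬ Γ d → ¬ NQL R (dec d) (pt d) (T p d) := fun d hd h =>
      hd (hΓ1 d ((hV (d, T p d)).mp h))
    have hcode : ∀ d, ¬ Γ d → ∀ k q, Val false (dec d k) q ↔ ¬ Val true (dec d k) q := by
      intro d hd k q
      obtain ⟨A, hA⟩ : IsCode (dec d k) := by
        by_contra hcon
        exact hQ d hd (Or.inl ⟨k, hcon⟩)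
      rw [val_false hA, val_true hA]
    have hR : ∀ k, Measurable fun x : (ℕ → ℕ) × Y D =>
        ¬ Γ x.1 ∧ Val true (dec x.1 k) (pt x.1 x.2, pt x.1 x.2) := fun k => by
      have hd : Measurable fun x : (ℕ → ℕ) × Y D => dec x.1 k :=
        (measurable_pi_apply k).comp (hdec.measurable.comp measurable_fst)
      refine An.meas (.and (.of_meas (hΓ.comp measurable_fst).not) (an_val _ hd hpt hpt))
        ((An.or (.of_meas (hΓ.comp measurable_fst)) (an_val false hd hpt hpt)).congr fun x => ?_)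
      by_cases hx : Γ x.1
      · simp [hx]
      · simp [hx, hcode _ hx]
    have hex : ∀ x : (ℕ → ℕ) × Y D, ∃ k, (¬ Γ x.1 ∧ Act (T p x.1) x.2) →
        ¬ Γ x.1 ∧ Val true (dec x.1 k) (pt x.1 x.2, pt x.1 x.2) := fun x => by
      by_contra hcon
      push Not at hcon
      obtain ⟨⟨h1, h2⟩, -⟩ := hcon (t 0)
      exact hQ _ h1 (Or.inr ⟨x.2, h2, Or.inl fun k => (hcode _ h1 _ _).mpr ((hcon k).2 h1)⟩)
    have hA2 : Measurable fun x : (ℕ → ℕ) × Y D => ¬ Γ x.1 ∧ Act (T p x.1) x.2 :=
      (hΓ.comp measurable_fst).not.and (measurable_Act (hTp.comp measurable_fst) measurable_snd)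
    obtain ⟨c2, hc2, hc2'⟩ := exists_choice (fun k => hA2.imp (hR k)) hex
    let c3 : (ℕ → ℕ) × Y D × Y1 D z0 → L := fun q =>
      if ¬ Γ q.1 ∧ Act (T p q.1) q.2.1 then c2 (q.1, q.2.1) else t (c q)
    have hc3 : Measurable c3 := .ite (measurableSet_setOfPred.mpr
      (hA2.comp (measurable_fst.prodMk measurable_snd.fst)))
      (hc2.comp (measurable_fst.prodMk measurable_snd.fst))
      ((measurable_of_countable t).comp hc)
    have key : ∀ (j : D) q, R j (c3 ((sysZ z0 (T p)).τ j q)) (c3 q) := by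
      rintro j ⟨d, y, v⟩
      by_cases h1 : ¬ Γ d ∧ Act (T p d) y
      · have h2 : ¬ Γ d ∧ Act (T p d) ((sysY _).τ j y) := ⟨h1.1, (act_sg _ _ _).mpr h1.2⟩
        rw [hτ d y v j h1.2]
        simp only [c3, if_pos h1, if_pos h2]
        by_contra e'
        exact hQ d h1.1 (Or.inr ⟨y, h1.2, Or.inr ⟨c2 (d, y), c2 (d, (sysY _).τ j y), j, e',
          (hc2' (d, y) h1).2, (hc2' (d, (sysY _).τ j y) h2).2⟩⟩)
      · simp only [c3, (hinv j (d, y, v)).1, (hinv j (d, y, v)).2, if_neg h1]
        refine ht j _ _ (hc' (d, y, v) j ?_)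
        by_cases h2 : Act (T p d) y
        · simp only [sysZ, if_pos h2]
          exact good_of_not_dom fun h3 => h2 ⟨_, hbr d (by tauto), h3⟩
        · simp only [sysZ, if_neg h2]
          exact good_of_not_dom v.2
    refine ⟨fun x => c3 (e.symm x), hc3.comp e.symm.measurable, fun x j => ?_⟩
    change R j (c3 (e.symm (e ((sysZ z0 (T p)).τ j (e.symm x))))) _
    rw [e.symm_apply_apply]
    exact key j _
  · rintro ⟨c, hc, hc'⟩
    by_contra hp
    choose k hk using fun j => exists_code (S := {q | c q.1 = j})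
      (measurableSet_eq_fun (hc.comp measurable_fst) measurable_const)
    obtain ⟨d, rfl⟩ := hdec' k
    have hc'' : ∀ y j, Act (T p d) y → R j (c (pt d ((sysY _).τ j y))) (c (pt d y)) :=
      fun y j h => by
        have h0 := hc' (pt d y) j
        change R j (c (e ((sysZ z0 (T p)).τ j (e.symm (e (d, y, v0)))))) _ at h0
        rwa [e.symm_apply_apply, hτ d y v0 j h] at h0
    have hQ : ¬ NQL R (dec d) (pt d) (T p d) := by
      rintro (⟨j, h⟩ | ⟨y, h, h' | ⟨i, i', j, h0, h1, h2⟩⟩)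
      · exact h ⟨_, hk j⟩
      · exact (val_false (hk _)).mp (h' _) rfl
      · have e1 : c (pt d y) = i := (val_true (hk i)).mp h1
        have e2 : c (pt d ((sysY _).τ j y)) = i' := (val_true (hk i')).mp h2
        exact h0 (e1 ▸ e2 ▸ hc'' y j h)
    refine no_sinkless' (fun y => s (c (pt d y))) ((measurable_of_countable s).comp (hc.comp
      (hpt.comp (measurable_const.prodMk measurable_id)))) fun y j h =>
        hs j _ _ h.1 h.2 (hc'' y j ?_)
    rintro ⟨z, hz, -⟩
    refine hp ⟨(p, fun n => z (g (.inl n))), ?_, rfl⟩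
    by_contra hcon
    obtain ⟨w, hw⟩ := (hU _).mp hcon
    exact hQ ((hV (d, T p d)).mpr ⟨_, Br.emb ((hT p d z).mp hz) hw⟩)

end Pool.Agent.Lib.MP_88d9d7_lc
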