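import Pool.Agent.Lib.MP_88d9d7_lc.Ins.Gadget

/-!
Perfect matchings of the gadget.
-/

set_option synthInstance.maxSize 2048
set_option linter.unusedSectionVars false

namespace Pool.Agent.Lib.MP_88d9d7_lc

open Set

variable {n : ℕ}

/-- The matched index at a node of a tree. -/
def MM (o : Bool) (α β j : Fin (n + 3)) : List (Fin (n + 2)) → Fin (n + 3)
  | [] => if α = j then 0 else if o ∧ β = j then Fin.succ 0 else Fin.succ 1
  | a :: w => if MM o α β j w = a.succ then 0 else Fin.succ 1

variable {Z : Type} (S : Sys (Fin (n + 3)) Z) (o : Z → Fin (n + 3) → Bool)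

/-- The matching of the gadget. -/
def mat (s : Z → Fin (n + 3)) : Z × Nm n → Fin (n + 3)
  | (z, .pt) => s z
  | (z, .nd j w) => MM (o z j) (s z) (s (S.τ j z)) j w

variable {o}

theorem mat_back (ho : ∀ z j, o (S.τ j z) j = !o z j) {s : Z → Fin (n + 3)}
    (hs : ∀ z j, ¬ (s (S.τ j z) = j ∧ s z = j)) (v : Z × Nm n) :
    mat S o s (gad S o v (mat S o s v)) = bk (o v.1 (ed v.2 (mat S o s v))) v.2 (mat S o s v) := by
  have h10 : (1 : Fin (n + 2)) ≠ 0 := by simp
  obtain ⟨z, _ | ⟨j, _ | ⟨a, w⟩⟩⟩ := v
  · have h1 : s (S.τ (s z) z) ≠ s z := fun e => hs z _ ⟨e, rfl⟩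
    rw [gad_none]
    cases h : o z (s z)
    · simp only [mat, bk, ed, h, Bool.false_eq_true, if_false, ho, S.inv, Bool.not_false, MM,
        if_true, if_neg h1, and_self]
    · simp only [mat, bk, ed, h, if_true, MM]
  · by_cases h1 : s z = j
    · have h2 : s (S.τ j z) ≠ j := fun e => hs z _ ⟨e, h1⟩
      have e : mat S o s (z, .nd j []) = 0 := by simp only [mat, MM, if_pos h1]
      rw [e, gad_root0]
      cases h : o z j
      · simp only [mat, bk, ed, h, Bool.false_eq_true, if_false, ho, S.inv, Bool.not_false, MM,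
          if_true, if_neg h2, h1, and_self, Fin.cases_zero]
      · simp only [mat, bk, ed, h, if_true, Fin.cases_zero, h1]
    · by_cases h2 : o z j ∧ s (S.τ j z) = j
      · have e : mat S o s (z, .nd j []) = Fin.succ 0 := by
          simp only [mat, MM, if_neg h1, if_pos h2]
        rw [e, gad_rootS]
        simp only [mat, bk, ed, h2.1, h2.2, if_true, Fin.cases_succ, and_self]
      · have e : mat S o s (z, .nd j []) = Fin.succ 1 := by
          simp only [mat, MM, if_neg h1, if_neg h2]
        rw [e, gad_rootS]
        simp only [mat, bk, ed, h10, and_false, if_false, Fin.cases_succ, MM, if_neg h1, if_neg h2,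
          if_true]
  · by_cases h1 : MM (o z j) (s z) (s (S.τ j z)) j w = a.succ
    · have e : mat S o s (z, .nd j (a :: w)) = 0 := by simp only [mat, MM, if_pos h1]
      rw [e, gad_cons0]
      by_cases h : o z j ∧ w = [] ∧ a = 0
      · simp only [bk, ed, Fin.cases_zero, if_pos h]
        obtain ⟨h2, rfl, rfl⟩ := h
        have h3 : s (S.τ j z) = j := by
          by_contra h3
          simp only [MM, h3, and_false, if_false] at h1
          split_ifs at h1
          · exact Fin.succ_ne_zero _ h1.symm
          · exact h10 (Fin.succ_injective _ h1)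
        simp only [mat, MM, if_pos h3]
      · simp only [bk, ed, Fin.cases_zero, if_neg h]
        exact h1
    · have e : mat S o s (z, .nd j (a :: w)) = Fin.succ 1 := by simp only [mat, MM, if_neg h1]
      rw [e, gad_consS]
      simp only [mat, bk, Fin.cases_succ, MM, if_neg h1, if_true]

end Pool.Agent.Lib.MP_88d9d7_lc
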