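import Pool.Agent.Lib.MP_88d9d7_lc.Ins.HardL

/-!
Graphs given by neighbour functions.
-/

set_option synthInstance.maxSize 2048
set_option linter.unusedSectionVars false

namespace Pool.Agent.Lib.MP_88d9d7_lc

open Set

/-- The graph of a neighbour function. -/
def nbG {D : Type} (N : X → D → X) : Set (X × X) := {q | ∃ k, N q.1 k = q.2}

theorem nbG_graph {Δ : ℕ} (N : X → Fin Δ → X) (hm : ∀ k, Measurable fun x => N x k)
    (hinj : ∀ x, Function.Injective (N x)) (hsym : ∀ x k, ∃ k', N (N x k) k' = x)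
    (hirr : ∀ x k, N x k ≠ x)
    (hnb : ∀ (x : ℕ → X) (n : ℕ), 0 < n → (∀ i, ∃ k, N (x i) k = x (i + 1)) →
      (∀ i, x (i + 2) ≠ x i) → ¬ ∀ i, x (i + n) = x i)
    (F : ℕ → Set (X × X)) (hF : ∀ n, MeasurableSet (F n) ∧ Equivalence (fun x y => (x, y) ∈ F n) ∧
      F n ⊆ F (n + 1) ∧ ∀ x, {y | (x, y) ∈ F n}.Finite) (hF' : ∀ x k, ∃ n, (x, N x k) ∈ F n) :
    IsGraph (nbG N) ∧ Regular Δ (nbG N) ∧ Acyclic (nbG N) ∧ Hyperfinite (nbG N) := by
  have hs : ∀ x y, (x, y) ∈ nbG N → (y, x) ∈ nbG N := by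
    rintro x y ⟨k, rfl : N x k = y⟩
    exact hsym x k
  refine ⟨⟨hs, fun x ⟨k, h⟩ => hirr x k h⟩, fun x => ?_, ?_, ?_⟩
  · have h1 : {y | (x, y) ∈ nbG N} = range (N x) := rfl
    rw [h1, ← image_univ, (hinj x).encard_image, encard_univ]
    simp
  · rintro ⟨n, x, h1, h2, h3, h4⟩
    have hn : 0 < n := by omega
    refine hnb (fun i => x (i % n)) n hn (fun i => ?_) (fun i e => ?_) fun i => by simp
    · have h5 := h4 (i % n) (Nat.mod_lt i hn)
      have h6 : x ((i + 1) % n) = x (i % n + 1) := by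
        rcases (Nat.succ_le_of_lt (Nat.mod_lt i hn)).eq_or_lt with h | h
        · have h' : i % n + 1 = n := h
          rw [← Nat.mod_add_mod, h', Nat.mod_self, h3]
        · rw [← Nat.mod_add_mod, Nat.mod_eq_of_lt h]
      rw [h6]
      exact h5
    · have h5 : (i + 2) % n = i % n := h2 (Nat.mod_lt _ hn) (Nat.mod_lt _ hn) e
      have h6 : n ∣ 2 := by
        have := (Nat.modEq_iff_dvd' (Nat.le_add_right i 2)).mp (Nat.ModEq.symm h5)
        simpa using this
      have := Nat.le_of_dvd (by omega) h6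
      omega
  · have hc : ∀ x y, Relation.ReflTransGen (fun a b => (a, b) ∈ nbG N) x y ↔
        ∃ u : List (Fin Δ), act (fun k x => N x k) x u = y := fun x y => by
      constructor
      · intro h
        induction h with
        | refl => exact ⟨[], rfl⟩
        | tail _ hbc ih =>
          obtain ⟨u, rfl⟩ := ih
          obtain ⟨k, hk⟩ := hbc
          exact ⟨u ++ [k], by rw [act_append]; exact hk⟩
      · rintro ⟨u, rfl⟩
        induction u generalizing x with
        | nil => exact .refl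
        | cons j u ih => exact .head ⟨j, rfl⟩ (ih _)
    have hM : Monotone F := monotone_nat_of_le_succ fun n => (hF n).2.2.1
    refine ⟨fun n => {q | Relation.ReflTransGen (fun a b => (a, b) ∈ nbG N) q.1 q.2 ∧ q ∈ F n},
      fun n => ⟨?_, ⟨fun x => ⟨.refl, (hF n).2.1.refl x⟩, fun {x y} h => ⟨?_, (hF n).2.1.symm h.2⟩,
        fun h h' => ⟨h.1.trans h'.1, (hF n).2.1.trans h.2 h'.2⟩⟩,
        fun q h => ⟨h.1, (hF n).2.2.1 h.2⟩, fun x => ((hF n).2.2.2 x).subset fun y h => h.2⟩,
      fun x y => ⟨fun h => ?_, fun ⟨n, h⟩ => h.1⟩⟩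
    · simp only [hc]
      exact measurableSet_setOfPred.mpr <| .and (.exists fun u => measurableSet_setOfPred.mp
        (measurableSet_eq_fun ((measurable_act' (τ := fun k x => N x k) hm u).comp measurable_fst)
          measurable_snd)) (hF n).1.mem
    · have h1 := h.1
      clear h
      dsimp only at h1 ⊢
      induction h1 with
      | refl => exact .refl
      | tail _ hbc ih => exact .head (hs _ _ hbc) ih
    · have : ∃ n, (x, y) ∈ F n := by
        induction h with
        | refl => exact ⟨0, (hF 0).2.1.refl x⟩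
        | @tail b c _ hbc ih =>
          obtain ⟨n, hn⟩ := ih
          obtain ⟨k, rfl : N b k = c⟩ := hbc
          obtain ⟨m, hm'⟩ := hF' b k
          exact ⟨max n m, (hF _).2.1.trans (hM (le_max_left n m) hn) (hM (le_max_right n m) hm')⟩
      exact this.imp fun n hn => ⟨h, hn⟩

end Pool.Agent.Lib.MP_88d9d7_lc
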