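import Pool.Agent.Lib.MP_88d9d7_lc.Ins.Label
import Pool.Agent.Lib.MP_88d9d7_lc.Ins.Defs

/-!
The reductions.
-/

set_option synthInstance.maxSize 2048
set_option linter.unusedSectionVars false

namespace Pool.Agent.Lib.MP_88d9d7_lc

open Set

variable {n : ℕ}

theorem measurable_nm {α β : Type} [MeasurableSpace α] [MeasurableSpace β] {F : α → Nm n → β}
    (hF : ∀ c, Measurable fun a => F a c) {c : α → Nm n} (hc : Measurable c) :
    Measurable fun a => F a (c a) :=
  (measurable_from_prod_countable_left (f := fun x : α × Nm n => F x.1 x.2) hF).comp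
    (measurable_id.prodMk hc)

theorem measurable_gad {α : Type} [MeasurableSpace α] {S : α → Sys (Fin (n + 3)) X}
    {o : α → X → Fin (n + 3) → Bool} {v : α → X × Nm n} (hv : Measurable v)
    (hτ : ∀ j, Measurable fun a => (S a).τ j (v a).1) (ho : ∀ j, Measurable fun a => o a (v a).1 j)
    (k : Fin (n + 3)) : Measurable fun a => gad (S a) (o a) (v a) k :=
  measurable_nm (F := fun a c => gad (S a) (o a) ((v a).1, c) k) (fun c => by
    unfold gad
    exact (Measurable.ite (measurableSet_eq_fun
      ((measurable_of_countable fun b => (nx b c k).1).comp (ho (ed c k)))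
        (measurable_const (a := true))) (hτ (ed c k)) hv.fst).prodMk
          ((measurable_of_countable fun b => (nx b c k).2).comp (ho (ed c k)))) hv.snd

/-- The neighbour function of the gadget on the Cantor space. -/
def gadX (e : (X × Nm n) ≃ᵐ X) (S : Sys (Fin (n + 3)) X) (o : X → Fin (n + 3) → Bool) (x : X)
    (k : Fin (n + 3)) : X := e (gad S o (e.symm x) k)

section Fixed

variable (e : (X × Nm n) ≃ᵐ X) (S : Sys (Fin (n + 3)) X) {o : X → Fin (n + 3) → Bool}
  (hτ : ∀ j, Measurable (S.τ j)) (hom : ∀ j, Measurable fun z => o z j)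
  (ho : ∀ z j, o (S.τ j z) j = !o z j)

theorem gadX_e (v : X × Nm n) (k) : gadX e S o (e v) k = e (gad S o v k) := by
  rw [gadX, e.symm_apply_apply]

theorem gadX_inj (x : X) : Function.Injective (gadX e S o x) :=
  fun _ _ h => gad_inj S _ (e.injective h)

include ho in
theorem gadX_back (x : X) (k) : gadX e S o (gadX e S o x k)
    (bk (o (e.symm x).1 (ed (e.symm x).2 k)) (e.symm x).2 k) = x := by
  simp only [gadX, e.symm_apply_apply]
  rw [gad_back S ho, e.apply_symm_apply]

include hτ hom in
theorem measurable_gadX (k) : Measurable fun x => gadX e S o x k :=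
  e.measurable.comp (measurable_gad (S := fun _ => S) (o := fun _ => o) e.symm.measurable
    (fun j => (hτ j).comp e.symm.measurable.fst) (fun j => (hom j).comp e.symm.measurable.fst) k)

include hτ hom ho in
theorem gadX_graph (hφ : Measurable S.φ) : IsGraph (nbG (gadX e S o)) ∧
    Regular (n + 3) (nbG (gadX e S o)) ∧ Acyclic (nbG (gadX e S o)) ∧
      Hyperfinite (nbG (gadX e S o)) := by
  let C : ℕ → X → X → Prop := fun m z z' =>
    ∃ u, Along S.τ (fun z j => S.φ z [j] < m) z u ∧ act S.τ z u = z'
  have hCm : ∀ m, Measurable fun q : X × X => C m q.1 q.2 := fun m => .exists fun u => .and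
    ((measurable_along hτ (fun j => meas2 ((measurable_pi_apply [j]).comp hφ) measurable_const
      (· < ·)) u).comp measurable_fst) (measurableSet_setOfPred.mp (measurableSet_eq_fun
        ((measurable_act' hτ u).comp measurable_fst) measurable_snd))
  have hlev : Measurable fun x => lev (e.symm x).2 :=
    (measurable_of_countable lev).comp e.symm.measurable.snd
  refine nbG_graph _ (measurable_gadX e S hτ hom) (gadX_inj e S)
    (fun x k => ⟨_, gadX_back e S ho x k⟩)
    (fun x k h => gad_irr S (e.symm x) k (e.injective (h.trans (e.apply_symm_apply x).symm)))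
    (fun x m hm h1 h2 h3 => gad_nb S ho (fun i => e.symm (x i)) m hm (fun i => ?_)
      (fun i h => h2 i (e.symm.injective h)) fun i => by rw [h3])
    (fun m => {q | q.1 = q.2 ∨ (lev (e.symm q.1).2 ≤ m ∧ lev (e.symm q.2).2 ≤ m ∧
      C m (e.symm q.1).1 (e.symm q.2).1)}) (fun m => ⟨?_, ⟨fun x => Or.inl rfl, ?_, ?_⟩, ?_, ?_⟩) ?_
  · obtain ⟨k, hk⟩ := h1 i
    exact ⟨k, by rw [← hk, gadX, e.symm_apply_apply]⟩
  · exact measurableSet_setOfPred.mpr <| .or
      (measurableSet_setOfPred.mp (measurableSet_eq_fun measurable_fst measurable_snd)) <|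
      .and (meas2 (hlev.comp measurable_fst) measurable_const (· ≤ ·)) <|
      .and (meas2 (hlev.comp measurable_snd) measurable_const (· ≤ ·))
        ((hCm m).comp ((e.symm.measurable.fst.comp measurable_fst).prodMk
          (e.symm.measurable.fst.comp measurable_snd)))
  · rintro x y (h | ⟨h1, h2, u, h3, h4⟩)
    · exact Or.inl h.symm
    · refine Or.inr ⟨h2, h1, u.reverse, ?_, ?_⟩
      · dsimp only at h4 ⊢
        rw [← h4]
        exact S.along_reverse (fun z j h => by rwa [S.eqv, sg_single]) h3
      · dsimp only at h4 ⊢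
        rw [← h4]
        exact S.act_reverse _ u
  · rintro x y z (h | ⟨h1, h2, u, h3, h4⟩) h'
    · dsimp only at h
      rwa [h]
    · rcases h' with h' | ⟨-, h5, v, h6, h7⟩
      · dsimp only at h'
        rw [← h']
        exact Or.inr ⟨h1, h2, u, h3, h4⟩
      · dsimp only at h4 h6 h7
        rw [← h4] at h6 h7
        exact Or.inr ⟨h1, h5, u ++ v, along_append.mpr ⟨h3, h6⟩, by rw [act_append]; exact h7⟩
  · rintro q (h | ⟨h1, h2, u, h3, h4⟩)
    · exact Or.inl h
    · exact Or.inr ⟨by omega, by omega, u, h3.mono fun _ _ h => by omega, h4⟩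
  · intro x
    have h1 : {c : Nm n | lev c ≤ m}.Finite := by
      refine (((Set.finite_univ (α := Fin (n + 3))).prod
        (List.finite_length_le (Fin (n + 2)) m)).image (fun p => Nm.nd p.1 p.2)).insert .pt
          |>.subset ?_
      rintro (_ | ⟨j, w⟩) h
      · exact Or.inl rfl
      · exact Or.inr ⟨(j, w), ⟨trivial, h⟩, rfl⟩
    refine ((((S.finite_class (e.symm x).1 m).prod h1).image e).insert x).subset ?_
    rintro y (h | ⟨-, h2, h3⟩)
    · exact Or.inl h.symm
    · exact Or.inr ⟨e.symm y, ⟨h3, h2⟩, e.apply_symm_apply y⟩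
  · intro x k
    refine ⟨lev (e.symm x).2 + lev (gad S o (e.symm x) k).2 +
      S.φ (e.symm x).1 [ed (e.symm x).2 k] + 1, Or.inr ?_⟩
    simp only [gadX, e.symm_apply_apply]
    refine ⟨by omega, by omega, ?_⟩
    rcases gad_base S (o := o) (e.symm x) k with h | h
    · exact ⟨[], trivial, h.symm⟩
    · exact ⟨[ed (e.symm x).2 k], ⟨by dsimp only; omega, trivial⟩, h.symm⟩

include ho in
theorem gad_mid (z : X) (j) : gad S o (S.τ j z, .pt) j = gad S o (z, .pt) j := by
  rw [gad_none, gad_none, ho, S.inv]
  cases o z j <;> rfl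

include hτ hom ho in
theorem gadX_match : BorelMatching (nbG (gadX e S o)) ↔
    ∃ s : X → Fin (n + 3), Measurable s ∧ ∀ x j, ¬ (s (S.τ j x) = j ∧ s x = j) := by
  have hN := measurable_gadX e S hτ hom
  constructor
  · rintro ⟨M, hM, h1, h2, h3⟩
    have hpt : Measurable fun z : X => e (z, .pt) :=
      e.measurable.comp (measurable_id.prodMk measurable_const)
    obtain ⟨s, hs, hs'⟩ := exists_choice (α := X) (L := Fin (n + 3))
      (A := fun z k => (e (z, .pt), gadX e S o (e (z, .pt)) k) ∈ M)
      (fun k => hM.mem.comp (hpt.prodMk ((hN k).comp hpt))) fun z => by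
        obtain ⟨y, hy, -⟩ := h3 (e (z, .pt))
        obtain ⟨k, rfl : gadX e S o (e (z, .pt)) k = y⟩ := h1 hy
        exact ⟨k, hy⟩
    refine ⟨s, hs, fun x j h => ?_⟩
    have e1 := h2 _ _ (hs' x)
    have e2 := h2 _ _ (hs' (S.τ j x))
    rw [h.2, gadX_e] at e1
    rw [h.1, gadX_e, gad_mid S ho] at e2
    exact S.ne x j (Prod.mk.inj (e.injective ((h3 _).unique e2 e1))).1
  · rintro ⟨s, hs, h⟩
    have hmat : Measurable fun x => mat S o s (e.symm x) :=
      measurable_nm (F := fun x c => mat S o s ((e.symm x).1, c)) (fun c => by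
        cases c with
        | pt => exact hs.comp e.symm.measurable.fst
        | nd j w =>
          exact (measurable_of_countable fun b : Bool × Fin (n + 3) × Fin (n + 3) =>
            MM b.1 b.2.1 b.2.2 j w).comp (((hom j).comp e.symm.measurable.fst).prodMk
              ((hs.comp e.symm.measurable.fst).prodMk
                (hs.comp ((hτ j).comp e.symm.measurable.fst))))) e.symm.measurable.snd
    refine ⟨{q | ∃ k, mat S o s (e.symm q.1) = k ∧ gadX e S o q.1 k = q.2},
      measurableSet_setOfPred.mpr (.exists fun k => .and (measurableSet_setOfPred.mp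
        (measurableSet_eq_fun (hmat.comp measurable_fst) measurable_const))
        (measurableSet_setOfPred.mp (measurableSet_eq_fun ((hN k).comp measurable_fst)
          measurable_snd))), fun q ⟨k, _, hk⟩ => ⟨k, hk⟩, ?_, fun x =>
          ⟨gadX e S o x (mat S o s (e.symm x)), ⟨_, rfl, rfl⟩, ?_⟩⟩
    · rintro x y ⟨_, rfl, rfl : gadX e S o x (mat S o s (e.symm x)) = y⟩
      refine ⟨_, rfl, ?_⟩
      simp only [gadX, e.symm_apply_apply]
      rw [mat_back S ho h, gad_back S ho, e.apply_symm_apply]
    · rintro y ⟨_, rfl, h'⟩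
      exact h'.symm

end Fixed

theorem exists_gad {S : (ℕ → Bool) → Sys (Fin (n + 3)) X}
    (hτ : ∀ j, Measurable fun x : (ℕ → Bool) × X => (S x.1).τ j x.2)
    (hφ : Measurable fun x : (ℕ → Bool) × X => (S x.1).φ x.2) :
    ∃ (f : (ℕ → Bool) → ℕ → ℕ) (G : (ℕ → Bool) → Set (X × X)), Measurable f ∧ ∀ p,
      Codes (f p) (G p) ∧ (IsGraph (G p) ∧ Regular (n + 3) (G p) ∧ Acyclic (G p) ∧
        Hyperfinite (G p)) ∧ (BorelMatching (G p) ↔
        ∃ s : X → Fin (n + 3), Measurable s ∧ ∀ x j, ¬ (s ((S p).τ j x) = j ∧ s x = j)) := by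
  classical
  let e : (X × Nm n) ≃ᵐ X := PolishSpace.measurableEquivOfNotCountable
    (fun h => not_countable_pi Bool.false_ne_true (Function.Injective.countable
      (f := fun d : X => (d, (Nm.pt : Nm n))) fun _ _ e => (Prod.mk.inj e).1))
    (not_countable_pi Bool.false_ne_true)
  obtain ⟨g, hg⟩ : ∃ g : X → ℝ, MeasurableEmbedding g :=
    ⟨_, MeasureTheory.measurableEmbedding_embeddingReal X⟩
  let o : (ℕ → Bool) → X → Fin (n + 3) → Bool := fun p z j => if g z < g ((S p).τ j z) then true
    else false
  have hom : ∀ j, Measurable fun x : (ℕ → Bool) × X => o x.1 x.2 j := fun j =>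
    .ite (measurableSet_lt (hg.measurable.comp measurable_snd) (hg.measurable.comp (hτ j)))
      measurable_const measurable_const
  have ho : ∀ p z j, o p ((S p).τ j z) j = !o p z j := fun p z j => by
    simp only [o, (S p).inv]
    rcases lt_trichotomy (g z) (g ((S p).τ j z)) with h | h | h
    · simp [h, h.not_gt]
    · exact absurd (hg.injective h).symm ((S p).ne z j)
    · simp [h, h.not_gt]
  have hv : Measurable fun x : (ℕ → Bool) × X × X => e.symm x.2.1 :=
    e.symm.measurable.comp measurable_snd.fst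
  obtain ⟨f, hf, hf'⟩ := coded_of_measurableSet (P := ℕ → Bool)
    (S := {x | ∃ k, gadX e (S x.1) (o x.1) x.2.1 k = x.2.2})
    (measurableSet_setOfPred.mpr <| .exists fun k => measurableSet_setOfPred.mp
      (measurableSet_eq_fun (e.measurable.comp (measurable_gad
        (S := fun x : (ℕ → Bool) × X × X => S x.1) (o := fun x => o x.1) hv
        (fun j => (hτ j).comp (measurable_fst.prodMk hv.fst))
        (fun j => (hom j).comp (measurable_fst.prodMk hv.fst)) k)) measurable_snd.snd))
  refine ⟨f, fun p => nbG (gadX e (S p) (o p)), hf, fun p => ?_⟩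
  have h1 : ∀ j, Measurable ((S p).τ j) := fun j =>
    (hτ j).comp (measurable_const.prodMk measurable_id)
  have h2 : ∀ j, Measurable fun z => o p z j := fun j =>
    (hom j).comp (measurable_const.prodMk measurable_id)
  exact ⟨hf' p, gadX_graph e _ h1 h2 (ho p) (hφ.comp (measurable_const.prodMk measurable_id)),
    gadX_match e _ h1 h2 (ho p)⟩

end Pool.Agent.Lib.MP_88d9d7_lc
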