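import Pool.Agent.Lib.MP_88d9d7_lc.Main

/-!
The game of `Game.lean` in its sinkless form: every Borel map to the generators has an edge both of
whose ends carry the name of that edge.
-/

set_option synthInstance.maxSize 2048
set_option linter.unusedSectionVars false

namespace Pool.Agent.Lib.MP_88d9d7_lc

open List

variable {D : Type} [Fintype D] [LinearOrder D]

theorem not_first_wins_s {c : (List D → ℕ) → D}
    (hc : ∀ y ∈ Y D, ∀ j, ¬ (c (sg j y) = j ∧ c y = j)) (i : D)
    (σ : (ℕ → Mv D) → ℕ → Mv D) (h1 : ∀ b b' r, (∀ s < r, b s = b' s) → σ b r = σ b' r)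
    (h2 : ∀ b, (∀ r, LP i (σ b) b r → LQ i (σ b) b r) ∧
      ((∀ r, LP i (σ b) b r) → c (lab i (σ b) b) = i)) : False := by
  set N := (σ default 0).2 with hN
  have h0 : ∀ b, (σ b 0).2 = N := fun b => by rw [h1 b default 0 (by simp)]
  let G : ℕ → (ℕ → Mv D) → ℕ → Mv D := fun d a r =>
    (fun u => if u.tail = [] then N else (a r).1 u.tail, max (a (r + d)).2 (N + 1))
  obtain ⟨b, hb⟩ := exists_fixed (R := (· < ·)) (α := Mv D) wellFounded_lt
    (fun b => G 0 (σ (G 1 (σ b)))) fun f g r h => by
      have : σ (G 1 (σ f)) r = σ (G 1 (σ g)) r := h1 _ _ r fun s hs => by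
        simp only [G]
        rw [h1 f g s fun t ht => h t (by omega), h1 f g (s + 1) fun t ht => h t (by omega)]
      simp only [G, Nat.add_zero] at this ⊢
      rw [this]
  set a := σ b with ha
  set b' := G 1 a with hb'
  set a' := σ b' with ha'
  have e1 : ∀ r u, (b r).1 (i :: u) = if u = [] then N else (a' r).1 u := fun r u => by
    rw [hb r]; rfl
  have e2 : ∀ r u, (b' r).1 (i :: u) = if u = [] then N else (a r).1 u := fun r u => rfl
  have e3 : ∀ r, (b r).2 = max (a' r).2 (N + 1) := fun r => by rw [hb r]; rfl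
  have e4 : ∀ r, (b' r).2 = max (a (r + 1)).2 (N + 1) := fun r => rfl
  have e5 : (a 0).2 = N := h0 b
  have e6 : (a' 0).2 = N := h0 b'
  obtain ⟨g1, g2⟩ := glue (i := i) e5 e6 e1 e2 (by rw [e3]; omega)
    (fun r => by rw [e4]; omega) fun n hn ⟨r, h3, h4⟩ => ⟨r, by rw [e3]; omega, fun s hs => by
      cases s with
      | zero => omega
      | succ s => have := h4 s (by omega); rw [e4] at this; omega⟩
  obtain ⟨-, g4⟩ := glue (i := i) e6 e5 e2 e1 (by rw [e4]; omega)
    (fun r => by rw [e3]; omega) fun n hn ⟨r, h3, h4⟩ => by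
      cases r with
      | zero => omega
      | succ r =>
        exact ⟨r, by rw [e4]; omega, fun s hs => by
          have := h4 s (by omega); rw [e3] at this; omega⟩
  have key : ∀ r, LP i a b r ∧ LP i a' b' r := by
    intro r
    induction r with
    | zero => exact ⟨leg_zero _ _ _, leg_zero _ _ _⟩
    | succ r ih => exact ⟨g2 r ((h2 b').1 r ih.2), g4 r ((h2 b).1 r ih.1)⟩
  refine hc _ (lab_mem (fun r => (key r).2) fun r => (h2 b').1 r (key r).2) i ⟨?_, ?_⟩
  · rw [← g1, (h2 b).2 fun r => (key r).1]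
  · exact (h2 b').2 fun r => (key r).2

/-- There is no Borel sinkless colouring. -/
theorem no_sinkless [MeasurableSpace D] [MeasurableSingletonClass D] (c : (List D → ℕ) → D)
    (hm : Measurable c) : ¬ ∀ y ∈ Y D, ∀ j, ¬ (c (sg j y) = j ∧ c y = j) := by
  intro hc
  have hP : ∀ n, Measurable fun p : (ℕ → Mv D) × (ℕ → Mv D) => OwnP p.1 p.2 n := fun n =>
    .exists fun r => .and (meas2 measurable_const (by fun_prop) (· < ·)) <|
      .forall fun s => .imp measurable_const (meas2 (by fun_prop) measurable_const (· ≤ ·))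
  have hQ : ∀ n, Measurable fun p : (ℕ → Mv D) × (ℕ → Mv D) => OwnQ p.1 p.2 n := fun n =>
    .exists fun r => .and (meas2 measurable_const (by fun_prop) (· < ·)) <|
      .forall fun s => .imp measurable_const (meas2 (by fun_prop) measurable_const (· ≤ ·))
  have hW : ∀ i, MeasurableSet {p : (ℕ → Mv D) × (ℕ → Mv D) |
      (∀ r, LP i p.1 p.2 r → LQ i p.1 p.2 r) ∧ ((∀ r, LP i p.1 p.2 r) → c (lab i p.1 p.2) = i)} :=
    fun i => measurableSet_setOfPred.mpr <|
      .and (.forall fun r => .imp (measurable_leg _ hP (measurable_lab i) r)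
        (measurable_leg _ hQ (measurable_lab i) r))
      (.imp (.forall fun r => measurable_leg _ hP (measurable_lab i) r)
        (measurableSet_setOfPred.mp ((hm.comp (measurable_lab i)) (measurableSet_singleton i))))
  have := fun i => (Shared.BorelDet.borel_determinacy (hW i)).resolve_left
    fun ⟨σ, h1, h2⟩ => not_first_wins_s hc i σ h1 h2
  choose τ h1 h2 using this
  exact not_second_wins τ h1 h2

theorem no_sinkless' [MeasurableSpace D] [MeasurableSingletonClass D] [Nonempty D] (c : Y D → D)
    (hm : Measurable c) : ¬ ∀ y j, ¬ (c ((sysY D).τ j y) = j ∧ c y = j) := by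
  intro h
  have he : MeasurableEmbedding (Subtype.val : Y D → List D → ℕ) :=
    MeasurableEmbedding.subtype_coe isClosed_Y.measurableSet
  refine no_sinkless _ (he.measurable_extend hm
    (measurable_const (a := Classical.arbitrary D))) fun y hy j => ?_
  have e1 := he.injective.extend_apply c (fun _ => Classical.arbitrary D) ⟨y, hy⟩
  have e2 := he.injective.extend_apply c (fun _ => Classical.arbitrary D) ((sysY D).τ j ⟨y, hy⟩)
  exact fun e => h ⟨y, hy⟩ j ⟨e2.symm.trans e.1, e1.symm.trans e.2⟩

/-- Measurable choice from a countable set. -/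
theorem exists_choice {α L : Type} [MeasurableSpace α] [MeasurableSpace L] [Countable L]
    {A : α → L → Prop} (hA : ∀ l, Measurable fun x => A x l) (hex : ∀ x, ∃ l, A x l) :
    ∃ c : α → L, Measurable c ∧ ∀ x, A x (c x) := by
  classical
  cases isEmpty_or_nonempty α with
  | inl _ => exact ⟨fun x => isEmptyElim x, measurable_of_empty _, fun x => isEmptyElim x⟩
  | inr h =>
    obtain ⟨x0⟩ := h
    have : Nonempty L := ⟨(hex x0).choose⟩
    obtain ⟨f, hf⟩ := exists_surjective_nat L
    have h1 : ∀ x, ∃ n, A x (f n) := fun x => by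
      obtain ⟨l, hl⟩ := hex x
      obtain ⟨n, rfl⟩ := hf l
      exact ⟨n, hl⟩
    exact ⟨fun x => f (Nat.find (h1 x)), (measurable_of_countable f).comp
      (measurable_find h1 fun n => measurableSet_setOfPred.mpr (hA _)), fun x => Nat.find_spec (h1 x)⟩

end Pool.Agent.Lib.MP_88d9d7_lc
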